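import Pool.Agent.NH30.KA.Arr

/-!
# MP_130685_nt: a criterion for Zilber-Pink for ARBITRARY subvarieties of `Y(1)^n` and all special
subvarieties of level `p ^ k`, `p` a large prime: there are no atypical intersections, or the
subvariety carries infinite arrays

The Shimura variety `Y(1)^n` is identified with `ℂ^n` by the elliptic modular function
`jj = j = E₄³ / Δ`. Let `V ⊂ Y(1)^n` be any closed subset defined by polynomials with integral
coefficients (for a subvariety defined over the algebraic numbers take the union of its conjugates),
`c` its codimension, and let `V'` be the closed subset of `(P^1)^n` defined by the multihomogeneous
forms of the same polynomials. Let `h` be a monic integral polynomial.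

**Arrays.** A type `(ρ, S, J)` consists of a map `ρ` with `ρ (ρ i) = ρ i` from the set of the
coordinates onto representatives of its classes and disjoint sets `S`, `J` of coordinates, such that
the coordinates in `J` form classes by themselves and the number of the classes is less than
`c + |S| + |J|` (`Cond`). An array of this type (`HasArray`) is a family of complex points `X_a` of
`V'`, `a ∈ ℤ^n`, such that the `i`-th coordinate of `X_(a + e_i)` is the `ρ i`-th coordinate of
`X_a` for all `i` with `ρ i ≠ i`, the coordinates in `S` have given values `z_i ∈ ℤ`, and the
coordinates in `J` are roots of `h`. So there are `n` unknown values for every `a`, which satisfy more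
than `n` equations: `c` from `V`, one for every nontrivial link, one for every coordinate in `S ∪ J`.
An array does not involve modular functions or primes any more. For instance let
`V = {(x, f(x), g(x))}` with rational functions `f`, `g`, and let the three coordinates be in one
class; then the values of the first coordinate of an array form a set `T ⊆ P^1` with `f(T) = T = g(T)`
and `f g = g f` on `T`.

**Theorem.** One of the following is true.

1. There is an integer `N₀ ≠ 0` such that for all primes `p` which do not divide `N₀`, `V` has no
   atypical intersection with any special subvariety `Z` of `Y(1)^n` of level `p ^ k`: the coordinates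
   of `Z` in one class are `j (g_i z)` with integral matrices `g_i` of determinant `p ^ k`, `k`
   arbitrary, and the constant coordinates are isogenous to roots of `h` by isogenies of degree a
   power of `p` (`SpecialVariety p 1 h n r`). Every irreducible closed subset of `V ∩ Z` has dimension at
   most `dim Z - c`, and the same bound holds for the transcendence degrees of the points of `V ∩ Z`
   (over any subring `Λ` of `ℂ`).
2. For some type `(ρ, S, J)` there are arrays on `V'` for all `z`.

So atypical intersections of level `p ^ k` for infinitely many primes `p`, with `k` arbitrary, force the
existence of an infinite array on `V'` over the complex numbers. Isogenies of degree `N p ^ k` with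
bounded `N` can be treated by replacing `V` by its images under Hecke correspondences. The theorem on
general systems in `PrimePowerLevels` says that the second case does not occur for them (for levels
`N p ^ k`); here `V` is arbitrary.

**Proof.** For infinitely many `p` the Frobenius conjugates of the reductions of the points of `V ∩ Z`
give grids of any given size on the reduction of `V'` (by the congruence of Kronecker), for one of
the types. By elimination theory there are grids of the same type and of all sizes over the complex
numbers, and an ultrapower of `ℂ`, which embeds into `ℂ`, gives an infinite array.
-/

set_option autoImplicit false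

namespace Pool.Agent.Results.MP_130685_nt.ArrayCriterion

open Pool.Agent.NH30.KF (Cond NoAtypical zeroSet)
open Pool.Agent.NH30.KA (HasArray)

/-- **The criterion**: `V` (the common zeros of finitely many polynomials `F j` with integral
coefficients) has no atypical intersections with special subvarieties of level `p ^ k` for all but
finitely many primes `p`, or it carries infinite arrays. -/
theorem result (n d c : ℕ) (κ : Type) [Finite κ] (F : κ → (Fin n → Fin (d + 1)) → ℤ)
    (h : Polynomial ℤ) (hh : h.Monic) :
    (∃ N₀ : ℤ, N₀ ≠ 0 ∧ ∀ p : ℕ, p.Prime → ¬ (p : ℤ) ∣ N₀ → ∀ Λ : Subring ℂ,
      NoAtypical p 1 h Λ c (zeroSet fun j e => ((F j e : ℤ) : ℂ))) ∨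
    ∃ (ρ : Fin n → Fin n) (S J : Finset (Fin n)), Cond c ρ S J ∧
      ∀ z : Fin n → ℤ, HasArray ℂ F ρ S J z h :=
  Pool.Agent.NH30.KA.dichotomy F h hh

end Pool.Agent.Results.MP_130685_nt.ArrayCriterion
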