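import Pool.Agent.NH30.KH.Img

/-!
# MP_130685_nt: Zilber-Pink for the images of arbitrary varieties in `Y(1)^n` under general rational
maps, for instance all general Möbius translates, and all special subvarieties of level `N p ^ k`

The Shimura variety `Y(1)^n` is identified with `ℂ^n` by the elliptic modular function
`jj = j = E₄³ / Δ`.

**Images.** Let `V ⊂ ℂ^N` be an arbitrary variety (or any set; its dimension is that of its Zariski
closure), and let `D` be any matrix of multidegrees. A vector `a` of coefficients, with the indices in
`Idx D`, gives `n` rational functions on `ℂ^N`: the numerator (index `0`) and the denominator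
(index `1`) of the `i`-th function are polynomials in `y_1, …, y_N` of degree at most `D i k` in
`y_k`. Let `X_a ⊂ Y(1)^n` be the Zariski closure of the image of `V` under these functions. For example:

* `N = n`, `D i i = 1` and `D i k = 0` for `i ≠ k`: the Möbius translates `g V` of a subvariety `V`
  of `Y(1)^n`, `g = (g_1, …, g_n)` matrices of size two;
* `V = ℂ`, `D i 1 = d`: the rational curves with parametrizations of degree `d`;
* `V = ℂ^m` or a curve, surface, … of any kind.

**Special subvarieties.** As in `MP_d83ecd_ag.PrimePowerLevels` (for systems of equations), fix a bound `B` and a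
monic integral polynomial `h`, and for a prime `p` consider the special subvarieties `Z` of `Y(1)^n`
(`SpecialVariety p B h n r`) whose coordinates in one class are `j (g_i z)`, with integral
matrices `g_i` of determinant `N p ^ k`, `N ≤ B`, `k` arbitrary, and whose constant coordinates are
isogenous to a root of `h` by an isogeny of degree a power of `p` (`h` can be a product of class
polynomials, so these are special points of discriminant `D p ^ (2 k)` with bounded `D`).

**Theorem.** Let `dim V ≤ n - c`. There is a finite set `Γ` of algebraically independent numbers and a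
polynomial `R ≠ 0` over `ℤ[Γ]` in the coefficients `a`, depending on `V`, `D`, `c`, `B`, `h`, such that:

1. For all subrings `Λ ⊇ ℤ[Γ]` of `ℂ`, homomorphisms `ψ` from `Λ` to `ℤ / p`, `p` a prime, and `a`
   with coordinates in `Λ` and `ψ (R (a)) ≠ 0` the variety `X_a` has no atypical intersection with any
   such `Z`: the irreducible closed subsets of `X_a ∩ Z` have dimension at most `dim Z - c`, and
   the points of `X_a ∩ Z` have at most that transcendence degree over `Λ`.
2. For all integral `a` with `R (a) ≠ 0` and for all but finitely many primes `p`, `X_a` has no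
   atypical intersection with any such `Z`.
3. `R (a) ≠ 0` for 100 % of the integral `a`: there are at most `C (2 H + 1) ^ (M - 1)` exceptions
   among the `(2 H + 1) ^ M` vectors `a` of size at most `H`.

**Proof.** As in `MP_d83ecd_ag.PrimePowerLevels` the conjugates under powers of Frobenius of the reduction
of a point of `X_a ∩ Z` form a grid, here on the reduction of the system which describes the
points `(x, y)`, `y` in the closure of `V` in `(P^1)^N` and `x` in the closure of the graph. The
degenerate maps with the denominators `∏ (y_k - β i k) ^ (D i k)` and numerators proportional to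
them, in general position with respect to `V`, have no large grids, so general maps do not
have them, by elimination. The closure of the image consists of points for which the system
has solutions in `(P^1)^N`, and `V` has relations of the kind needed over a ring `ℤ[Γ]`.
-/

set_option autoImplicit false

namespace Pool.Agent.Results.MP_130685_nt.GeneralImages

open MvPolynomial Pool.Agent.W282.ZP Pool.Agent.NH30.KH
open Pool.Agent.NH30.KF (SpecialVariety NoAtypical)

/-- **Zilber-Pink for images under general rational maps** and special subvarieties of level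
`N p ^ k`. -/
theorem result (n N c B : ℕ) (h : Polynomial ℤ) (hh : h.Monic) (D : Fin n → Fin N → ℕ)
    (V : Set (Fin N → ℂ)) (hV : zdim V + (c : Cardinal) ≤ (n : Cardinal)) :
    ∃ Γ : Finset ℂ, AlgebraicIndependent ℤ (fun γ : Γ => (γ : ℂ)) ∧
      ∃ R : MvPolynomial (Idx D) (Subring.closure (Γ : Set ℂ)), R ≠ 0 ∧
      (∀ (Λ : Subring ℂ) (hle : Subring.closure (Γ : Set ℂ) ≤ Λ) (p : ℕ), p.Prime →
        ∀ (ψ : Λ →+* ZMod p) (a : Idx D → Λ), ψ (eval₂ (Subring.inclusion hle) a R) ≠ 0 →
        NoAtypical p B h Λ c (zcl (image (fun v => (a v : ℂ)) V))) ∧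
      (∀ a : Idx D → ℤ, eval (fun v => (a v : Subring.closure (Γ : Set ℂ))) R ≠ 0 →
        ∃ N₀ : ℤ, N₀ ≠ 0 ∧ ∀ p : ℕ, p.Prime → ¬ (p : ℤ) ∣ N₀ →
          NoAtypical p B h (Subring.closure (Γ : Set ℂ)) c
            (zcl (image (fun v => ((a v : ℤ) : ℂ)) V))) ∧
      ∃ C : ℕ, ∀ H : ℕ, {a : Idx D → ℤ | (∀ v, |a v| ≤ H) ∧
        eval (fun v => (a v : Subring.closure (Γ : Set ℂ))) R = 0}.ncard * (2 * H + 1) ≤
          C * (2 * H + 1) ^ (∑ i, 2 * ∏ k, (D i k + 1)) := by
  classical
  have hcn : c ≤ n := by
    have h1 : (c : Cardinal) ≤ (n : Cardinal) := le_trans (self_le_add_left _ _) hV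
    exact_mod_cast h1
  obtain ⟨Γ, hΓ, hrel⟩ := exists_relations V hV
  obtain ⟨R, hR0, hR⟩ := img_noAtypical (B := B) hh D hcn V (Subring.closure (Γ : Set ℂ)) hrel
  refine ⟨Γ, hΓ, R, hR0, hR, ?_, R.totalDegree, fun H => ?_⟩
  · intro a ha
    obtain ⟨N₀, hN₀, hspec⟩ := exists_specialization Γ hΓ _ ha
    refine ⟨N₀, hN₀, fun p hp hdvd => ?_⟩
    obtain ⟨ψ, hψ⟩ := hspec p hp hdvd
    have h1 := hR (Subring.closure (Γ : Set ℂ)) le_rfl p hp ψ
      (fun v => (a v : Subring.closure (Γ : Set ℂ))) (by
        have e1 : Subring.inclusion (le_refl (Subring.closure (Γ : Set ℂ))) =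
          RingHom.id _ := by
          ext x
          rfl
        rw [e1, eval₂_id]
        exact hψ)
    have e2 : (fun v => (((a v : ℤ) : Subring.closure (Γ : Set ℂ)) : ℂ)) =
        fun v => ((a v : ℤ) : ℂ) := by
      funext v
      push_cast
      rfl
    rw [e2] at h1
    exact h1
  · have h1 := count_domain hR0 H
    have h2 : Fintype.card (Idx D) = ∑ i, 2 * ∏ k, (D i k + 1) := by
      rw [Fintype.card_sigma]
      refine Finset.sum_congr rfl fun i _ => ?_
      rw [Fintype.card_prod, Fintype.card_fin, Fintype.card_pi]
      congr 1
      refine Finset.prod_congr rfl fun k _ => ?_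
      rw [Fintype.card_fin]
    rw [h2] at h1
    exact h1

end Pool.Agent.Results.MP_130685_nt.GeneralImages
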