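import Pool.Agent.NH30.KT.Main3

/-!
# MP_130685_nt: Zilber-Pink for one hundred percent of the integral and of the rational members of
one-parameter families of subvarieties of `Y(1)^n` with one starshaped degenerate member, for instance
of the families `V_t + F (t)` of translates by vectors of rational functions with a common pole

The variety `Y(1)^n` is identified with `ℂ^n` by the elliptic modular function `jj = j = E₄³ / Δ`.
Let `K ⊂ ℂ` be a countable field (for instance the field of all algebraic numbers), `m` the
dimension of the subvarieties, and let `e_1, …, e_n > 0` be integers (the orders of the poles) and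
`a_i / b_i` nonzero rational numbers (the leading coefficients) such that

  `(a_i / b_i) ^ (e_j) ≠ ± (a_j / b_j) ^ (e_i)` for `i ≠ j`.

**Translates** (second part of the theorem). Let `V_t ⊂ ℂ^n` be an algebraic family over `K` of
subvarieties of dimension `m`: for every set `J` of `m + 1` coordinates let an equation
`G_J (y_j, j ∈ J) = 0` be given, with coefficients in `K[t]`, of degree at most `d_J j` in `y_j`, in
which the coefficient of the top monomial `∏_{j ∈ J} y_j ^ (d_J j)` is not zero at `t = 0` (no point
of the closure of `V_0` in `(P^1)^n` has `m + 1` coordinates equal to `∞`). Let
`F (t) = (P_i (t) / (t ^ (e_i) Q_i (t)))_i` be a vector of rational functions over `K` with poles at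
`t = 0`, with `P_i (0) = a_i` and `Q_i (0) = b_i`. Then for one hundred percent of all positive
integers `t`, and for one hundred percent of all rational numbers `t` (ordered by height), the
translate `X_t = V_t + F (t)` has no atypical intersection at all with the special subvarieties `Z` of
`Y(1)^n`: every irreducible closed subset of `X_t ∩ Z` has dimension at most `dim Z + m - n`, and the
same bound holds for the transcendence degree over `K` of every point of `X_t ∩ Z` (`NoAtypical`).
The special subvarieties are arbitrary (all isogenies between the coordinates, all CM points), and
their constant coordinates may also be arbitrary numbers which are integral over the ring generated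
by a given finite subset `Γ` of `K`. For instance one hundred percent of the translates
`V + (2, 3, 5) / t`, `V ⊂ Y(1)^3` any curve without points with two infinite coordinates, satisfy the
conjecture of Zilber and Pink.

**Starshaped families** (first part). More generally let `X_t` be the set of all `x` such that
`F_J (t ^ (e_j) x_j, j ∈ J) = 0` for all sets `J` of `m + 1` coordinates, where the `F_J (z, t)` are
polynomials with coefficients in `K[t]`, of degree at most `d_J j` in `z_j`, and with
`F_J (z, 0) = κ_J ∏_{j ∈ J} (b_j z_j - a_j) ^ (d_J j)`, `κ_J ≠ 0`. So in the coordinates
`z_j = t ^ (e_j) x_j` the special fibre of the family is contained in the union of the coordinate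
subspaces of dimension `m` through the point `(a_i / b_i)_i`. (With `y = x - F (t)` the translates are
a special case.) The same is true for this family.

**Criterion.** In both cases there is a number `D` such that there are no atypical intersections for
all rational numbers `t ≠ 0` whose numerators have `n (n - 1) / 2 + 1` prime factors `p > D` for which
the orders of `(a_i / b_i) ^ e / (a_j / b_j) ^ f` modulo `p`, `e / f = e_j / e_i` in lowest terms, are
different even up to factors which are powers of the primes (`Ok`), for all `i < j`.

**The proof.** Let `p` be such a prime factor and `x` a point of `X_t` on a special subvariety for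
which the statement is wrong. In a suitable valuation ring above `p` all but `m` of the numbers
`t ^ (e_i) x_i` are near to `a_i / b_i`, and two of the corresponding coordinates are in the same class
of coordinates. Let `N` be the degree of the smallest isogeny between `x_i` and `x_j`. The expansion
of the modular polynomial at the cusps, for coordinates of the same valuation as `t ^ (- e_i)` and
`t ^ (- e_j)`, shows `N = A B (g p ^ k) ^ 2`, where `A / B = e_i / e_j` and `g` is the order of the
residue class of `x_i ^ B / x_j ^ A` (`S_ORD2`). For one of the pairs `i, j` this is true for two of the
primes, which contradicts the condition on the orders. One hundred percent of all integers have such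
prime factors (`S_PAIRS`).

The earlier theorems on families (`IntegralParameters`, `TropicalFewExceptions` and others) need
several degenerate members, at which the orders of the poles are independent modulo squares. Here one
degenerate member is enough, and all orders may be the same: the isogenies are controlled by the
residue classes of the leading coefficients.
-/

set_option autoImplicit false

namespace Pool.Agent.Results.MP_130685_nt.PolarTranslates

open MvPolynomial
open Pool.Agent.NH30.KT (AlmostAll NoAtypical member shiftBy zeros main2)

/-- **Almost all members of starshaped families, and almost all translates of a family by a vector of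
rational functions with a common pole, have no atypical intersections.** -/
theorem result (K : Subfield ℂ) [Countable K] (n m : ℕ) (e : Fin n → ℕ) (he : ∀ i, 0 < e i)
    (a b : Fin n → ℤ) (ha0 : ∀ i, a i ≠ 0) (hb0 : ∀ i, b i ≠ 0)
    (hab : ∀ i j, i < j → |a i| ^ e j * |b j| ^ e i ≠ |a j| ^ e i * |b i| ^ e j)
    (d : ∀ J : Finset (Fin n), J →₀ ℕ) (Γ : Finset ℂ) (hΓ : ∀ γ ∈ Γ, γ ∈ K) :
    (∀ F : ∀ J : Finset (Fin n), MvPolynomial J (Polynomial K),
      (∀ J : Finset (Fin n), J.card = m + 1 → ∀ u ∈ (F J).support, ∀ j, u j ≤ d J j) →
      ∀ κ : Finset (Fin n) → K, (∀ J, J.card = m + 1 → κ J ≠ 0) →
      (∀ J : Finset (Fin n), J.card = m + 1 → MvPolynomial.map (Polynomial.evalRingHom 0) (F J) =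
        C (κ J) * ∏ j : J, (C ((b j : ℤ) : K) * X j - C ((a j : ℤ) : K)) ^ d J j) →
      AlmostAll e a b (fun q => NoAtypical K Γ m (member m e F q))) ∧
    ∀ G : ∀ J : Finset (Fin n), MvPolynomial J (Polynomial K),
      (∀ J : Finset (Fin n), J.card = m + 1 → ∀ u ∈ (G J).support, ∀ j, u j ≤ d J j) →
      (∀ J : Finset (Fin n), J.card = m + 1 → ((G J).coeff (d J)).eval 0 ≠ 0) →
      ∀ P Q : Fin n → Polynomial K, (∀ i, (P i).eval 0 = (a i : ℤ)) →
      (∀ i, (Q i).eval 0 = (b i : ℤ)) →
      AlmostAll e a b (fun q => NoAtypical K Γ m (shiftBy e P Q q (zeros m G q))) :=
  main2 K n m e he a b ha0 hb0 hab d Γ hΓ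

end Pool.Agent.Results.MP_130685_nt.PolarTranslates
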