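import Pool.Agent.NH84.TP.Main
import Pool.Agent.Y152.RP.Main

/-!
# MP_130685_nt: Zilber-Pink for all but finitely many members, with parameters of bounded degree, with
radical parameters or with roots of unity as parameters, of arbitrary families, from their
tropicalizations

The Shimura variety `Y(1)^n` is identified with `ℂ^n` by the elliptic modular function
`jj = j = E₄³ / Δ`. The problem is the case `k = 0` of the following theorem on `Y(1)^n × G_m^k`.

A complex number `t` is *radical* if some power `t^N`, `N > 0`, is a rational number (`IsRadical`).
The radical numbers have arbitrarily large degrees; they are the elements of the division group of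
`ℚ^×` (of infinite rank, with all the roots of unity as torsion) and `0`.

**Families.** Let `K ⊂ ℂ` be a countable field and let `P` be an arbitrary finite system of polynomials
with coefficients in `K[t]`, in `n` modular coordinates, `k` torus coordinates and `N` auxiliary
coordinates. The member `X_t` (`member`) is the set of the points `x` of `Y(1)^n × G_m^k` for which
there is a `y ∈ ℂ^N` such that all polynomials of the system vanish at `(x, y)`, for the given `t`.
So `(X_t)` can be any one-parameter family of subvarieties, or of their images under algebraic maps or
correspondences.

**Tropicalization.** For `α ∈ ℚ` the set `Trop α P` consists of the points `w` of `(ℚ ∪ {∞})^(n+k+N)`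
such that for every polynomial of the system the minimum of the numbers `ord_α (coefficient) + β · w`
(over the exponents `β` of its monomials) is attained at two different exponents or is infinite.

**Types of special subvarieties.** The product `Z × C` of a special subvariety `Z` of `Y(1)^n` and a
coset `C` of an algebraic subgroup of the torus has a type `(cls, δ, L)`: the partition `cls` of the
coordinates of `Y(1)^n` which are not constant on `Z` into `r = dim Z` classes, the determinants
`δ_i > 0` of the matrices which define `Z`, and the linear subspace `L` of `ℚ^k`, of dimension `dim C`,
which is orthogonal to the characters constant on `C`. A point `w` is compatible with the type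
(`Compatible`) if `w_i ≥ 0` for the constant coordinates, for coordinates `i`, `j` in the same class
either `w_i ≥ 0` and `w_j ≥ 0`, or `w_i < 0`, `w_j < 0` and `δ_i δ_j w_i w_j` is the square of a rational
number, and the torus coordinates of `w` are a vector in `L`.

**Theorem.** Let `m` be an integer (the dimension of the members) and `D` a finite set of rational
numbers. Assume that for every type of dimension `r + dim L < n + k - m` there are at least `s` elements
`α` of `D` such that `Trop α P` contains no compatible point (`Generic m s P`).
1. If `s = 2 d + 1` then for all but finitely many algebraic numbers `t` of degree at most `d` over the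
   rational numbers `X_t` has no atypical intersection with the products `Z × C` (`NoAtypical`), that
   is, every irreducible closed subset of `X_t ∩ (Z × C)` has dimension at most
   `dim (Z × C) + m - (n + k)`, and the same bound holds for the transcendence degrees of the points
   of `X_t ∩ (Z × C)` over `K`.
2. If `s = 3` and the elements of `D` are nonzero with distinct absolute values then the same is true
   for all but finitely many radical numbers `t`, of arbitrary degrees.
3. If `s = 1` and `|α| ≠ 0, 1` for all `α` in `D` then the same is true for all but finitely many roots
   of unity `t`.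

The constant coordinates of `Z` can be special points or integral over the ring `ℤ[Γ]` generated by a
given finite set `Γ` of numbers algebraic over `K`, and `C` is a coset by a point whose coordinates are
units over `ℤ[Γ]`, for instance a torsion coset.

The starting file `TropicalFewExceptions` bounds the number of the exceptional parameters `t ∈ ℚ` of a
given denominator (`s = 1`); here the exceptional set is finite, and the parameters can have bounded
or, in 2. and 3., arbitrary degree. The starting file `MP_d83ecd_ag.AlgebraicParameters` treats, for
the same parameters, families of the special form `c_i(t) s_i = A_i(y) / B_i(y)` in `Y(1)^n`, where at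
sufficiently many `α` no point lies on `m + 1` of the divisors of the `A_i / B_i` and all `c_i`
vanish, with independent orders. Here the family is arbitrary, there are torus coordinates, and
different degenerate members can exclude different types of special subvarieties.

The proof combines the criterion `Pool.Agent.R424.TG.core` for one parameter, places of `ℂ` at which
a parameter `t` is near to `α` (for every large prime factor of the value at `α` of the minimal polynomial
of `t`), and the arithmetic of `AlgebraicParameters`: for all but finitely many of the parameters `t` all
elements of `D` up to `2 d`, `2` and `0` exceptions have such a prime factor.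
-/

set_option autoImplicit false

namespace Pool.Agent.Results.MP_130685_nt.TropicalParameters

open MvPolynomial Pool.Agent.R424.TG
open Pool.Agent.Y152.RP.FamM (NoAtypical)

/-- `t` is algebraic over the rational numbers, of degree at most `d`. -/
def DegreeAtMost (d : ℕ) (t : ℂ) : Prop :=
  ∃ F : Polynomial ℤ, F ≠ 0 ∧ F.natDegree ≤ d ∧ Polynomial.aeval t F = 0

/-- Some power of `t` with positive exponent is a rational number. -/
def IsRadical (t : ℂ) : Prop := ∃ N : ℕ, 0 < N ∧ ∃ q : ℚ, t ^ N = (q : ℂ)

/-- `t` is a root of unity. -/
def IsRootOfUnity (t : ℂ) : Prop := ∃ N : ℕ, 0 < N ∧ t ^ N = 1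

/-- **The tropical criterion** for all but finitely many members, with parameters of bounded degree,
with radical parameters, with roots of unity as parameters, of arbitrary one-parameter families of
subvarieties of `Y(1)^n × G_m^k`. -/
theorem result (K : Subfield ℂ) [Countable K] (κ : Type) [Finite κ] (n k N m : ℕ)
    (P : κ → MvPolynomial ((Fin n ⊕ Fin k) ⊕ Fin N) (Polynomial K)) (D : Finset ℚ)
    (Γ : Finset ℂ) (hΓ : ∀ γ ∈ Γ, IsAlgebraic K γ) :
    (∀ d : ℕ, Generic m (2 * d + 1) P (D.image fun q : ℚ => (q : ℂ)) →
      {t : ℂ | DegreeAtMost d t ∧ ¬ NoAtypical (algebraMap (Algebra.adjoin ℤ (Γ : Set ℂ)) ℂ) K m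
        (member t P)}.Finite) ∧
    ((∀ α ∈ D, α ≠ 0) → (∀ α ∈ D, ∀ β ∈ D, α ≠ β → |α| ≠ |β|) →
      Generic m 3 P (D.image fun q : ℚ => (q : ℂ)) →
      {t : ℂ | IsRadical t ∧ ¬ NoAtypical (algebraMap (Algebra.adjoin ℤ (Γ : Set ℂ)) ℂ) K m
        (member t P)}.Finite) ∧
    ((∀ α ∈ D, α ≠ 0 ∧ |α| ≠ 1) → Generic m 1 P (D.image fun q : ℚ => (q : ℂ)) →
      {t : ℂ | IsRootOfUnity t ∧ ¬ NoAtypical (algebraMap (Algebra.adjoin ℤ (Γ : Set ℂ)) ℂ) K m
        (member t P)}.Finite) := by
  refine ⟨fun d hgen => ?_, fun h0 hdist hgen => ?_, fun hne hgen => ?_⟩
  · refine Pool.Agent.NH84.TP.finite_of K κ n k N m (2 * d) P D Γ hΓ {t | DegreeAtMost d t}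
      (fun b L M hM α hα hαD => ?_) hgen
    exact Pool.Agent.Y152.BD.finite_badD b d (by omega) α hα
  · refine Pool.Agent.NH84.TP.finite_of K κ n k N m 2 P D Γ hΓ {t | IsRadical t}
      (fun b L M hM α hα hαD => ?_) hgen
    exact Pool.Agent.Y152.RP.arithMain b L M (by omega) α (fun l => h0 _ (hαD l))
      (fun l l' hl => hdist _ (hαD l) _ (hαD l') fun h => hl (hα h))
  · refine Pool.Agent.NH84.TP.finite_of K κ n k N m 0 P D Γ hΓ {t | IsRootOfUnity t}
      (fun b L M hM α hα hαD => ?_) hgen
    exact Pool.Agent.Y152.RP.unityMain (by omega) α (fun l => (hne _ (hαD l)).1)
      (fun l => (hne _ (hαD l)).2) b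

end Pool.Agent.Results.MP_130685_nt.TropicalParameters
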